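import Pool.Agent.Lib.helper3.FockB

set_option autoImplicit false

namespace Pool.Agent.Results.MP_d26497_an.Counterexample

open MeasureTheory
open scoped ComplexConjugate InnerProductSpace

noncomputable section

/-- The measure on `ℂⁿ` with density `exp (-|z|²)`, as a product of `n` copies of the measure
with density `exp (-|w|²)` on `ℂ`. -/
abbrev gauss (n : ℕ) : Measure (Fin n → ℂ) := Measure.pi fun _ => Pool.Agent.Lib.H3Fock.gam

/-- `L²(gauss n)`. -/
abbrev L2 (n : ℕ) : Type := Lp ℂ 2 (gauss n)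

/-- A representative of a class in `L²`. -/
def fn {n : ℕ} (f : L2 n) : (Fin n → ℂ) → ℂ := f

/-- The inner product of `L²`. -/
def ip {n : ℕ} (f g : L2 n) : ℂ := ⟪f, g⟫_ℂ

/-- Classes in `L²(gauss n)` of entire functions. -/
def Ent (n : ℕ) : Set (L2 n) :=
  {f | ∃ g : (Fin n → ℂ) → ℂ, Differentiable ℂ g ∧ fn f =ᵐ[gauss n] g}

/-- The Bargmann-Segal space as a linear subspace (`Ent n` is already one). -/
def Fock (n : ℕ) : Submodule ℂ (L2 n) := Submodule.span ℂ (Ent n)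

/-- The function of `z, conj z` given by a polynomial in `2n` variables. -/
def symb {n : ℕ} (p : MvPolynomial (Fin n ⊕ Fin n) ℂ) (z : Fin n → ℂ) : ℂ :=
  MvPolynomial.eval (Sum.elim z fun i => conj (z i)) p

/-- The graph of the Toeplitz operator: pairs `(f, g)` with `φ f ∈ L²` and `g = P (φ f)`. -/
def graph {n : ℕ} (φ : (Fin n → ℂ) → ℂ) : Set (L2 n × L2 n) :=
  {x | x.1 ∈ Ent n ∧ x.2 ∈ Ent n ∧ ∃ k : L2 n, fn k =ᵐ[gauss n] (fun z => φ z * fn x.1 z) ∧
    ∀ h ∈ Ent n, ip h x.2 = ip h k}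

/-- The operator `A` on `F` whose graph is the closure of `G` has a compact resolvent
`R = (l - A)⁻¹` at some point `l`. -/
def ClosureCompactResolvent {E : Type} [NormedAddCommGroup E] [NormedSpace ℂ E]
    (F : Submodule ℂ E) (G : Set (E × E)) : Prop :=
  ∃ (l : ℂ) (R : F →L[ℂ] F), IsCompactOperator R ∧
    ∀ f g : F, (f.1, g.1) ∈ closure G ↔ R (l • f - g) = f

/-- The closure of the Toeplitz operator with symbol `φ` has compact resolvent. -/
def CR {n : ℕ} (φ : (Fin n → ℂ) → ℂ) : Prop := ClosureCompactResolvent (Fock n) (graph φ)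

lemma mem_Fock {n : ℕ} {f : L2 n} : f ∈ Fock n ↔ f ∈ Ent n := by
  refine ⟨fun h => ?_, fun h => Submodule.subset_span h⟩
  induction h using Submodule.span_induction with
  | mem x h => exact h
  | zero => exact ⟨0, differentiable_const _, Lp.coeFn_zero _ _ _⟩
  | add a b _ _ ha hb =>
    obtain ⟨g, hg, h⟩ := ha
    obtain ⟨g', hg', h'⟩ := hb
    exact ⟨g + g', hg.add hg', (Lp.coeFn_add a b).trans (h.add h')⟩
  | smul c a _ ha =>
    obtain ⟨g, hg, h⟩ := ha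
    exact ⟨c • g, hg.const_smul c, (Lp.coeFn_smul c a).trans (h.const_smul c)⟩

def graph' {n : ℕ} (φ : (Fin n → ℂ) → ℂ) : Set (Fock n × Fock n) :=
  {x | ∃ k : Lp ℂ 2 (gauss n), k =ᵐ[gauss n] (fun z => φ z * x.1.1 z) ∧
    ∀ h : Fock n, ⟪h.1, x.2.1⟫_ℂ = ⟪h.1, k⟫_ℂ}

lemma mem_closure {n : ℕ} (φ : (Fin n → ℂ) → ℂ) (f g : Fock n) :
    (f.1, g.1) ∈ closure (graph φ) ↔ (f, g) ∈ closure (graph' φ) := by
  have e : graph φ = Prod.map Subtype.val Subtype.val '' graph' φ := by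
    ext ⟨a, b⟩
    constructor
    · rintro ⟨ha, hb, k, hk, h⟩
      exact ⟨(⟨a, mem_Fock.2 ha⟩, ⟨b, mem_Fock.2 hb⟩), ⟨k, hk, fun x => h _ (mem_Fock.1 x.2)⟩, rfl⟩
    · rintro ⟨⟨x, y⟩, ⟨k, hk, h⟩, h1⟩
      obtain ⟨rfl, rfl⟩ := Prod.mk.inj h1
      exact ⟨mem_Fock.1 x.2, mem_Fock.1 y.2, k, hk, fun z hz => h ⟨z, mem_Fock.2 hz⟩⟩
  rw [e, (Topology.IsInducing.subtypeVal.prodMap
    Topology.IsInducing.subtypeVal).closure_eq_preimage_closure_image]
  rfl

open Pool.Agent.Lib.H3Fock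

def graphS {n : ℕ} (φ : (Fin n → ℂ) → ℂ) : Submodule ℂ (Fock n × Fock n) where
  carrier := graph' φ
  add_mem' := by
    rintro x y ⟨k, hk, h⟩ ⟨k', hk', h'⟩
    refine ⟨k + k', ?_, fun g => ?_⟩
    · filter_upwards [Lp.coeFn_add k k', hk, hk', Lp.coeFn_add x.1.1 y.1.1] with z h1 h2 h3 h4
      rw [h1, Pi.add_apply, h2, h3, Prod.fst_add, Submodule.coe_add, h4, Pi.add_apply, mul_add]
    · rw [Prod.snd_add, Submodule.coe_add, inner_add_right, inner_add_right, h, h']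
  zero_mem' := ⟨0, by
    filter_upwards [Lp.coeFn_zero ℂ 2 (gauss n)] with z h
    rw [Prod.fst_zero, Submodule.coe_zero, h, Pi.zero_apply, mul_zero], fun _ => rfl⟩
  smul_mem' := by
    rintro c x ⟨k, hk, h⟩
    refine ⟨c • k, ?_, fun g => ?_⟩
    · filter_upwards [Lp.coeFn_smul c k, hk, Lp.coeFn_smul c x.1.1] with z h1 h2 h4
      rw [h1, Pi.smul_apply, h2, Prod.smul_fst, Submodule.coe_smul, h4, Pi.smul_apply,
        smul_eq_mul, smul_eq_mul, mul_left_comm]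
    · rw [Prod.smul_snd, Submodule.coe_smul, inner_smul_right, inner_smul_right, h]

def V (a : ℕ × ℕ) : Fock 2 := ⟨v a, mem_Fock.2 ⟨_, (mon_diff a).const_mul _, v_ae a⟩⟩

lemma V_orth : Orthonormal ℂ V := v_orth

lemma V_tot (f : Fock 2) (h : ∀ a, ⟪V a, f⟫_ℂ = 0) : f = 0 := by
  obtain ⟨g, hg, hf⟩ := mem_Fock.1 f.2
  exact Subtype.ext (complete f g hg hf h)

instance complete2 : CompleteSpace (Fock 2) := by
  let U := v_orth.orthogonalFamily.linearIsometry
  let K : Submodule ℂ (Lp ℂ 2 mu) := U.toLinearMap.range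
  have hK : IsClosed (K : Set (Lp ℂ 2 mu)) := U.isometry.isClosedEmbedding.isClosed_range
  have := hK.completeSpace_coe
  have h1 : K ≤ Fock 2 := by rintro _ ⟨c, rfl⟩; exact mem_Fock.2 (sum_entire c)
  have h2 : Fock 2 ≤ K := fun f hf => by
    obtain ⟨y, hy, z, hz, rfl⟩ := K.exists_add_mem_mem_orthogonal f
    have h3 : z ∈ Fock 2 := by simpa using (Fock 2).sub_mem hf (h1 hy)
    have h4 := V_tot ⟨z, h3⟩ fun a => hz _ ⟨lp.single 2 a 1, by
      refine (v_orth.orthogonalFamily.linearIsometry_apply_single (i := a) (1 : ℂ)).trans ?_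
      exact one_smul ℂ (v a)⟩
    rw [show z = 0 from congrArg Subtype.val h4, add_zero]
    exact hy
  rw [le_antisymm h2 h1]
  exact this

def B : HilbertBasis (ℕ × ℕ) ℂ (Fock 2) := HilbertBasis.mkOfOrthogonalEqBot V_orth
  (eq_bot_iff.2 fun f hf => V_tot f fun a => hf _ (Submodule.subset_span ⟨a, rfl⟩))

lemma B_eq (a : ℕ × ℕ) : B a = V a := congrFun (HilbertBasis.coe_mkOfOrthogonalEqBot _ _) a

lemma test (k : Lp ℂ 2 mu) (a : ℕ × ℕ) (l : ℂ) (hk : ∀ d, ⟪v d, k⟫_ℂ = if d = a then l else 0)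
    (h : Fock 2) : ⟪h.1, (l • V a).1⟫_ℂ = ⟪h.1, k⟫_ℂ := by
  let K := (Fock 2).orthogonalProjectionOnto
  have h1 : K k = l • V a := sub_eq_zero.1 (V_tot _ fun d => by
    have e1 : ⟪V d, l • V a⟫_ℂ = l * ⟪V d, V a⟫_ℂ := inner_smul_right (v d) (v a) l
    have e2 : ⟪V d, K k⟫_ℂ = ⟪v d, k⟫_ℂ :=
      Submodule.inner_orthogonalProjectionOnto_eq_of_mem_left (V d) k
    rw [inner_sub_right, e1, e2, orthonormal_iff_ite.1 V_orth, hk]
    split_ifs <;> simp)
  rw [← h1]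
  exact Submodule.inner_orthogonalProjectionOnto_eq_of_mem_left h k

open MvPolynomial in
def P (c : ℕ × ℕ) : MvPolynomial (Fin 2 ⊕ Fin 2) ℂ :=
  X (.inl 0) ^ c.1 * X (.inl 1) ^ c.2 * (X (.inr 0) ^ c.1 * X (.inr 1) ^ c.2)

lemma P_hom (c : ℕ × ℕ) : (P c).IsHomogeneous (c.1 + c.2 + (c.1 + c.2)) :=
  ((MvPolynomial.isHomogeneous_X_pow _ _).mul (MvPolynomial.isHomogeneous_X_pow _ _)).mul
    ((MvPolynomial.isHomogeneous_X_pow _ _).mul (MvPolynomial.isHomogeneous_X_pow _ _))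

lemma P_symb (c : ℕ × ℕ) (z : Fin 2 → ℂ) : symb (P c) z = conj (mon c z) * mon c z := by
  simp [symb, P, mon]; ring

lemma w_eq (c a : ℕ × ℕ) : w (nr a) c (a + c) =ᵐ[mu] fun z => symb (P c) z * v a z := by
  filter_upwards [w_ae (nr a) c (a + c), v_ae a] with z h1 h2
  rw [h1, h2, P_symb]
  simp only [mon, Prod.fst_add, Prod.snd_add]; ring

theorem result : ∃ ψ φ₁ : MvPolynomial (Fin 2 ⊕ Fin 2) ℂ,
    ψ.IsHomogeneous 8 ∧ φ₁.totalDegree ≤ 7 ∧
    CR (symb ψ) ∧ ¬ CR (symb (ψ + φ₁)) := by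
  refine ⟨P (2, 2), MvPolynomial.C (-2) * P (2, 0), P_hom (2, 2),
    ((P_hom (2, 0)).C_mul _).totalDegree_le.trans (by norm_num), ?_, ?_⟩
  · have hl : ∀ a, lam (2, 2) a ≠ 0 := fun a => by rw [lam22]; exact Nat.cast_ne_zero.2 (by positivity)
    have h := closure_diag B (lam (2, 2)) (graphS (symb (P (2, 2)))) (by
      rintro ⟨f, g⟩ ⟨k, hk, h⟩ a
      have h1 : ⟪w (nr a) (2, 2) (a + (2, 2)), f.1⟫_ℂ = ⟪v a, k⟫_ℂ := by
        rw [L2.inner_def, L2.inner_def]
        refine integral_congr_ae ?_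
        filter_upwards [w_eq (2, 2) a, hk] with z h1 h2
        rw [h1, h2, P_symb]; simp; ring
      have h2 := congrArg conj (test _ a _ (inner_w a (2, 2)) f)
      rw [inner_conj_symm, inner_conj_symm, h1, Submodule.coe_smul, inner_smul_left, lam22,
        map_natCast, ← lam22] at h2
      rw [B_eq]
      exact (h (V a)).trans h2.symm)
      (fun a => by rw [B_eq]; exact ⟨_, w_eq _ a, test _ a _ (inner_w a _)⟩)
    obtain ⟨R, hR, hR'⟩ := exists_diag B _ lam_summable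
    refine ⟨0, R, hR, fun f g => ((mem_closure _ f g).trans (h (f, g))).trans ⟨fun h1 => ?_, fun h1 a => ?_⟩⟩
    · refine B.repr.injective (lp.ext (funext fun a => ?_))
      rw [B.repr_apply_apply, B.repr_apply_apply, hR', zero_smul, zero_sub, inner_neg_right, h1 a]
      have := hl a
      field_simp
    · have h2 := hR' ((0 : ℂ) • f - g) a
      rw [h1, zero_smul, zero_sub, inner_neg_right] at h2
      have := hl a
      rw [h2]; field_simp
  · rintro ⟨l, R, hR, h⟩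
    refine not_compact (fun m => V (m, 0)) (V_orth.comp _ fun m m' h => congrArg Prod.fst h) R hR l
      fun m => ?_
    rw [← sub_zero (l • _)]
    refine (h _ _).1 ((mem_closure _ _ _).2 <| subset_closure ⟨w (nr (m, 0)) (2, 2) ((m, 0) + (2, 2)) +
      (-2 : ℂ) • w (nr (m, 0)) (2, 0) ((m, 0) + (2, 0)), ?_, fun g => ?_⟩)
    · filter_upwards [w_eq (2, 2) (m, 0), w_eq (2, 0) (m, 0), Lp.coeFn_add
        (w (nr (m, 0)) (2, 2) ((m, 0) + (2, 2))) ((-2 : ℂ) • w (nr (m, 0)) (2, 0) ((m, 0) + (2, 0))),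
        Lp.coeFn_smul (-2 : ℂ) (w (nr (m, 0)) (2, 0) ((m, 0) + (2, 0)))] with z h1 h2 h3 h4
      refine h3.trans ?_
      rw [Pi.add_apply, h4, Pi.smul_apply, h1, h2]
      simp only [symb, map_add, map_mul, MvPolynomial.eval_C, smul_eq_mul, V]
      ring
    · refine Eq.trans ?_ (test _ (m, 0) 0 (fun d => ?_) g)
      · rw [zero_smul]
      · rw [inner_add_right, inner_smul_right, inner_w, inner_w, lam20]
        split_ifs <;> simp

end

end Pool.Agent.Results.MP_d26497_an.Counterexample
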